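import Pool.Agent.X53.VDM

/-!
# MP_943595_co: Hermitian plus omega times rank-one Hermitian matrices in characteristic 2

The answer to Q1 is positive.
-/

namespace Pool.Agent.Results.MP_943595_co.CharTwo

open Pool.Agent.X53.VDM Matrix

variable {K : Type*} [Field K] {n : ℕ}

/-- `M` is Hermitian with respect to the involution `σ`: `M j i = σ (M i j)`. -/
def IsHerm (σ : K →+* K) (M : Matrix (Fin n) (Fin n) K) : Prop := ∀ i j, M j i = σ (M i j)

/-- The principal minor on rows and columns `S`. -/
def minor (A : Matrix (Fin n) (Fin n) K) (S : Finset (Fin n)) : K :=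
  (A.submatrix (fun i : S => (i : Fin n)) (fun i : S => (i : Fin n))).det

/-- **MP_943595_co, Q1 (affirmative).** -/
theorem result {K : Type*} [Field K] [CharP K 2] (ν : AddValuation K (WithTop ℝ)) (σ : K →+* K)
    (hσ : ∀ a, σ (σ a) = a) (hν : ∀ a, ν (σ a) = ν a) (ω : K) (hω : σ ω = ω + 1) {n : ℕ}
    (B C : Matrix (Fin n) (Fin n) K) (hB : IsHerm σ B) (hC : IsHerm σ C) (hrk : C.rank ≤ 1) :
    IsValuatedDeltaMatroid (fun S : Finset (Fin n) => ν (minor (B + ω • C) S)) := by
  refine main ν σ hσ hν (B + ω • C) ?_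
  have h : B + ω • C + ct σ (B + ω • C) = C := by
    ext i j
    have h1 := hB j i
    have h2 := hC j i
    rw [Matrix.add_apply, ct_apply, Matrix.add_apply, Matrix.add_apply, Matrix.smul_apply,
      Matrix.smul_apply, smul_eq_mul, smul_eq_mul, map_add, map_mul, ← h1, ← h2, hω]
    have h3 : ∀ x : K, x + x = 0 := fun x => CharTwo.add_self_eq_zero x
    calc B i j + ω * C i j + (B i j + (ω + 1) * C i j)
        = (B i j + B i j) + (ω * C i j + ω * C i j) + C i j := by ring
      _ = C i j := by rw [h3, h3]; ring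
  rw [h]
  exact hrk

end Pool.Agent.Results.MP_943595_co.CharTwo
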